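import Mathlib

namespace Pool.Agent.H.MP_31d2fb_co

open Finset

def s (e : Fin 45) : Fin 30 := Fin.ofNat 30 ([0, 4, 7, 10, 13, 2, 5, 8, 11, 14, 16, 19, 23, 26, 29, 0, 1, 2, 3, 4, 5, 6, 7, 8, 9, 10, 11, 12, 13, 14, 15, 16, 17, 18, 19, 20, 21, 22, 23, 24, 25, 26, 27, 28, 29].getD e.val 0)
def t (e : Fin 45) : Fin 30 := Fin.ofNat 30 ([3, 6, 9, 12, 1, 15, 18, 21, 24, 27, 22, 25, 28, 17, 20, 1, 2, 0, 4, 5, 3, 7, 8, 6, 10, 11, 9, 13, 14, 12, 16, 17, 15, 19, 20, 18, 22, 23, 21, 25, 26, 24, 28, 29, 27].getD e.val 0)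
def fl (e : Fin 45) : ℕ := [4, 3, 6, 1, 7, 3, 7, 5, 7, 6, 6, 2, 3, 5, 5, 3, 4, 7, 7, 4, 3, 5, 3, 6, 7, 6, 1, 6, 1, 7, 5, 3, 6, 5, 7, 2, 3, 5, 6, 5, 7, 2, 5, 6, 3].getD e.val 0
def f (e : Fin 45) (i : Fin 3) : ZMod 2 := if (fl e).testBit i.val then 1 else 0
def e1 (u : Fin 30) : Fin 45 := Fin.ofNat 45 ([0, 4, 5, 0, 1, 6, 1, 2, 7, 2, 3, 8, 3, 4, 9, 5, 10, 13, 6, 11, 14, 7, 10, 12, 8, 11, 13, 9, 12, 14].getD u.val 0)
def e2 (u : Fin 30) : Fin 45 := Fin.ofNat 45 ([15, 15, 16, 18, 18, 19, 21, 21, 22, 24, 24, 25, 27, 27, 28, 30, 30, 31, 33, 33, 34, 36, 36, 37, 39, 39, 40, 42, 42, 43].getD u.val 0)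
def e3 (u : Fin 30) : Fin 45 := Fin.ofNat 45 ([17, 16, 17, 20, 19, 20, 23, 22, 23, 26, 25, 26, 29, 28, 29, 32, 31, 32, 35, 34, 35, 38, 37, 38, 41, 40, 41, 44, 43, 44].getD u.val 0)
def C0 : Finset (Fin 45) := univ.filter (fun e => 15 ≤ e.val)

theorem ne_st : ∀ e, s e ≠ t e := by decide +kernel

theorem inc_iff : ∀ v e, (s e = v ∨ t e = v) ↔ (e = e1 v ∨ e = e2 v ∨ e = e3 v) := by
  decide +kernel

theorem dist : ∀ v, e1 v ≠ e2 v ∧ e1 v ≠ e3 v ∧ e2 v ≠ e3 v := by decide +kernel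

theorem inc_eq (v : Fin 30) :
    univ.filter (fun e : Fin 45 => s e = v ∨ t e = v) = {e1 v, e2 v, e3 v} := by
  ext e
  simp [inc_iff]

theorem card_eq (C : Finset (Fin 45)) (v : Fin 30) :
    (C.filter (fun e : Fin 45 => s e = v ∨ t e = v)).card =
      (if e1 v ∈ C then 1 else 0) + (if e2 v ∈ C then 1 else 0) + (if e3 v ∈ C then 1 else 0) := by
  have : C.filter (fun e : Fin 45 => s e = v ∨ t e = v) =
      ({e1 v, e2 v, e3 v} : Finset (Fin 45)).filter (fun e => e ∈ C) := by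
    rw [← inc_eq]
    ext e
    simp [and_comm]
  obtain ⟨d1, d2, d3⟩ := dist v
  rw [this, card_filter, sum_insert (by simp [d1, d2]), sum_insert (by simp [d3]), sum_singleton,
    add_assoc]

theorem cubic (v : Fin 30) : (univ.filter (fun e : Fin 45 => s e = v ∨ t e = v)).card = 3 := by
  rw [card_eq]; simp

theorem f_ne : ∀ e, f e ≠ 0 := by decide +kernel

theorem f_sum' : ∀ v, f (e1 v) + (f (e2 v) + f (e3 v)) = 0 := by decide +kernel

theorem f_sum (v : Fin 30) : ∑ e ∈ univ.filter (fun e : Fin 45 => s e = v ∨ t e = v), f e = 0 := by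
  obtain ⟨d1, d2, d3⟩ := dist v
  rw [inc_eq, sum_insert (by simp [d1, d2]), sum_insert (by simp [d3]), sum_singleton, f_sum']

theorem lines : ((univ : Finset (Fin 30)).image
    (fun v : Fin 30 => (univ.filter (fun e : Fin 45 => s e = v ∨ t e = v)).image f)).card ≤ 5 := by
  simp only [inc_eq]
  decide +kernel

theorem c0 (v : Fin 30) : (C0.filter (fun e : Fin 45 => s e = v ∨ t e = v)).card = 2 := by
  rw [card_eq]
  revert v
  decide +kernel

theorem arith : ([0, 1].all fun a0 => [0, 1].all fun b0 => a0 + b0 == 0 ||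
    [0, 1].all fun a4 => [0, 1].all fun b4 => a4 + b4 == 0 ||
    [0, 1].all fun a5 => [0, 1].all fun b5 => a5 + b5 == 0 ||
    (a0 + a4 + a5) % 2 != 0 || (b0 + b4 + b5) % 2 != 0 ||
    [0, 1].all fun a1 => [0, 1].all fun b1 => a1 + b1 == 0 ||
    [0, 1].all fun a6 => [0, 1].all fun b6 => a6 + b6 == 0 ||
    (a0 + a1 + a6) % 2 != 0 || (b0 + b1 + b6) % 2 != 0 ||
    [0, 1].all fun a2 => [0, 1].all fun b2 => a2 + b2 == 0 ||
    [0, 1].all fun a7 => [0, 1].all fun b7 => a7 + b7 == 0 ||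
    (a1 + a2 + a7) % 2 != 0 || (b1 + b2 + b7) % 2 != 0 ||
    [0, 1].all fun a3 => [0, 1].all fun b3 => a3 + b3 == 0 ||
    [0, 1].all fun a8 => [0, 1].all fun b8 => a8 + b8 == 0 ||
    (a2 + a3 + a8) % 2 != 0 || (b2 + b3 + b8) % 2 != 0 ||
    [0, 1].all fun a9 => [0, 1].all fun b9 => a9 + b9 == 0 ||
    (a3 + a4 + a9) % 2 != 0 || (b3 + b4 + b9) % 2 != 0 ||
    [0, 1].all fun a10 => [0, 1].all fun b10 => a10 + b10 == 0 ||
    [0, 1].all fun a13 => [0, 1].all fun b13 => a13 + b13 == 0 ||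
    (a5 + a10 + a13) % 2 != 0 || (b5 + b10 + b13) % 2 != 0 ||
    [0, 1].all fun a11 => [0, 1].all fun b11 => a11 + b11 == 0 ||
    [0, 1].all fun a14 => [0, 1].all fun b14 => a14 + b14 == 0 ||
    (a6 + a11 + a14) % 2 != 0 || (b6 + b11 + b14) % 2 != 0 ||
    [0, 1].all fun a12 => [0, 1].all fun b12 => a12 + b12 == 0 ||
    (a7 + a10 + a12) % 2 != 0 || (b7 + b10 + b12) % 2 != 0 ||
    (a8 + a11 + a13) % 2 != 0 || (b8 + b11 + b13) % 2 != 0 ||
    (a9 + a12 + a14) % 2 != 0 || (b9 + b12 + b14) % 2 != 0) = true := by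
  decide +kernel

theorem nocover (x y : Fin 45 → ℕ) (hx : ∀ e, x e ∈ [0, 1]) (hy : ∀ e, y e ∈ [0, 1])
    (h1 : ∀ v, (x (e1 v) + x (e2 v) + x (e3 v)) % 2 = 0)
    (h2 : ∀ v, (y (e1 v) + y (e2 v) + y (e3 v)) % 2 = 0)
    (hc : ∀ e : Fin 45, e.val < 15 → ¬ x e + y e = 0) : False := by
  have p0 : (x 0 + x 4 + x 5) % 2 = 0 := by
    have g0 : (x 0 + x 15 + x 17) % 2 = 0 := h1 0
    have g1 : (x 4 + x 15 + x 16) % 2 = 0 := h1 1
    have g2 : (x 5 + x 16 + x 17) % 2 = 0 := h1 2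
    omega
  have p1 : (x 0 + x 1 + x 6) % 2 = 0 := by
    have g0 : (x 0 + x 18 + x 20) % 2 = 0 := h1 3
    have g1 : (x 1 + x 18 + x 19) % 2 = 0 := h1 4
    have g2 : (x 6 + x 19 + x 20) % 2 = 0 := h1 5
    omega
  have p2 : (x 1 + x 2 + x 7) % 2 = 0 := by
    have g0 : (x 1 + x 21 + x 23) % 2 = 0 := h1 6
    have g1 : (x 2 + x 21 + x 22) % 2 = 0 := h1 7
    have g2 : (x 7 + x 22 + x 23) % 2 = 0 := h1 8
    omega
  have p3 : (x 2 + x 3 + x 8) % 2 = 0 := by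
    have g0 : (x 2 + x 24 + x 26) % 2 = 0 := h1 9
    have g1 : (x 3 + x 24 + x 25) % 2 = 0 := h1 10
    have g2 : (x 8 + x 25 + x 26) % 2 = 0 := h1 11
    omega
  have p4 : (x 3 + x 4 + x 9) % 2 = 0 := by
    have g0 : (x 3 + x 27 + x 29) % 2 = 0 := h1 12
    have g1 : (x 4 + x 27 + x 28) % 2 = 0 := h1 13
    have g2 : (x 9 + x 28 + x 29) % 2 = 0 := h1 14
    omega
  have p5 : (x 5 + x 10 + x 13) % 2 = 0 := by
    have g0 : (x 5 + x 30 + x 32) % 2 = 0 := h1 15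
    have g1 : (x 10 + x 30 + x 31) % 2 = 0 := h1 16
    have g2 : (x 13 + x 31 + x 32) % 2 = 0 := h1 17
    omega
  have p6 : (x 6 + x 11 + x 14) % 2 = 0 := by
    have g0 : (x 6 + x 33 + x 35) % 2 = 0 := h1 18
    have g1 : (x 11 + x 33 + x 34) % 2 = 0 := h1 19
    have g2 : (x 14 + x 34 + x 35) % 2 = 0 := h1 20
    omega
  have p7 : (x 7 + x 10 + x 12) % 2 = 0 := by
    have g0 : (x 7 + x 36 + x 38) % 2 = 0 := h1 21
    have g1 : (x 10 + x 36 + x 37) % 2 = 0 := h1 22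
    have g2 : (x 12 + x 37 + x 38) % 2 = 0 := h1 23
    omega
  have p8 : (x 8 + x 11 + x 13) % 2 = 0 := by
    have g0 : (x 8 + x 39 + x 41) % 2 = 0 := h1 24
    have g1 : (x 11 + x 39 + x 40) % 2 = 0 := h1 25
    have g2 : (x 13 + x 40 + x 41) % 2 = 0 := h1 26
    omega
  have p9 : (x 9 + x 12 + x 14) % 2 = 0 := by
    have g0 : (x 9 + x 42 + x 44) % 2 = 0 := h1 27
    have g1 : (x 12 + x 42 + x 43) % 2 = 0 := h1 28
    have g2 : (x 14 + x 43 + x 44) % 2 = 0 := h1 29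
    omega
  have q0 : (y 0 + y 4 + y 5) % 2 = 0 := by
    have g0 : (y 0 + y 15 + y 17) % 2 = 0 := h2 0
    have g1 : (y 4 + y 15 + y 16) % 2 = 0 := h2 1
    have g2 : (y 5 + y 16 + y 17) % 2 = 0 := h2 2
    omega
  have q1 : (y 0 + y 1 + y 6) % 2 = 0 := by
    have g0 : (y 0 + y 18 + y 20) % 2 = 0 := h2 3
    have g1 : (y 1 + y 18 + y 19) % 2 = 0 := h2 4
    have g2 : (y 6 + y 19 + y 20) % 2 = 0 := h2 5
    omega
  have q2 : (y 1 + y 2 + y 7) % 2 = 0 := by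
    have g0 : (y 1 + y 21 + y 23) % 2 = 0 := h2 6
    have g1 : (y 2 + y 21 + y 22) % 2 = 0 := h2 7
    have g2 : (y 7 + y 22 + y 23) % 2 = 0 := h2 8
    omega
  have q3 : (y 2 + y 3 + y 8) % 2 = 0 := by
    have g0 : (y 2 + y 24 + y 26) % 2 = 0 := h2 9
    have g1 : (y 3 + y 24 + y 25) % 2 = 0 := h2 10
    have g2 : (y 8 + y 25 + y 26) % 2 = 0 := h2 11
    omega
  have q4 : (y 3 + y 4 + y 9) % 2 = 0 := by
    have g0 : (y 3 + y 27 + y 29) % 2 = 0 := h2 12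
    have g1 : (y 4 + y 27 + y 28) % 2 = 0 := h2 13
    have g2 : (y 9 + y 28 + y 29) % 2 = 0 := h2 14
    omega
  have q5 : (y 5 + y 10 + y 13) % 2 = 0 := by
    have g0 : (y 5 + y 30 + y 32) % 2 = 0 := h2 15
    have g1 : (y 10 + y 30 + y 31) % 2 = 0 := h2 16
    have g2 : (y 13 + y 31 + y 32) % 2 = 0 := h2 17
    omega
  have q6 : (y 6 + y 11 + y 14) % 2 = 0 := by
    have g0 : (y 6 + y 33 + y 35) % 2 = 0 := h2 18
    have g1 : (y 11 + y 33 + y 34) % 2 = 0 := h2 19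
    have g2 : (y 14 + y 34 + y 35) % 2 = 0 := h2 20
    omega
  have q7 : (y 7 + y 10 + y 12) % 2 = 0 := by
    have g0 : (y 7 + y 36 + y 38) % 2 = 0 := h2 21
    have g1 : (y 10 + y 36 + y 37) % 2 = 0 := h2 22
    have g2 : (y 12 + y 37 + y 38) % 2 = 0 := h2 23
    omega
  have q8 : (y 8 + y 11 + y 13) % 2 = 0 := by
    have g0 : (y 8 + y 39 + y 41) % 2 = 0 := h2 24
    have g1 : (y 11 + y 39 + y 40) % 2 = 0 := h2 25
    have g2 : (y 13 + y 40 + y 41) % 2 = 0 := h2 26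
    omega
  have q9 : (y 9 + y 12 + y 14) % 2 = 0 := by
    have g0 : (y 9 + y 42 + y 44) % 2 = 0 := h2 27
    have g1 : (y 12 + y 42 + y 43) % 2 = 0 := h2 28
    have g2 : (y 14 + y 43 + y 44) % 2 = 0 := h2 29
    omega
  have h := arith
  simp only [List.all_eq_true, Bool.or_eq_true, bne_iff_ne, ne_eq, beq_iff_eq, or_assoc] at h
  have m0 := (h (x 0) (hx _) (y 0) (hy _)).resolve_left (hc 0 (by decide))
  have m4 := (m0 (x 4) (hx _) (y 4) (hy _)).resolve_left (hc 4 (by decide))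
  have m5 := (m4 (x 5) (hx _) (y 5) (hy _)).resolve_left (hc 5 (by decide))
  have k0 := (m5.resolve_left (not_not.2 p0)).resolve_left (not_not.2 q0)
  have m1 := (k0 (x 1) (hx _) (y 1) (hy _)).resolve_left (hc 1 (by decide))
  have m6 := (m1 (x 6) (hx _) (y 6) (hy _)).resolve_left (hc 6 (by decide))
  have k1 := (m6.resolve_left (not_not.2 p1)).resolve_left (not_not.2 q1)
  have m2 := (k1 (x 2) (hx _) (y 2) (hy _)).resolve_left (hc 2 (by decide))
  have m7 := (m2 (x 7) (hx _) (y 7) (hy _)).resolve_left (hc 7 (by decide))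
  have k2 := (m7.resolve_left (not_not.2 p2)).resolve_left (not_not.2 q2)
  have m3 := (k2 (x 3) (hx _) (y 3) (hy _)).resolve_left (hc 3 (by decide))
  have m8 := (m3 (x 8) (hx _) (y 8) (hy _)).resolve_left (hc 8 (by decide))
  have k3 := (m8.resolve_left (not_not.2 p3)).resolve_left (not_not.2 q3)
  have m9 := (k3 (x 9) (hx _) (y 9) (hy _)).resolve_left (hc 9 (by decide))
  have k4 := (m9.resolve_left (not_not.2 p4)).resolve_left (not_not.2 q4)
  have m10 := (k4 (x 10) (hx _) (y 10) (hy _)).resolve_left (hc 10 (by decide))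
  have m13 := (m10 (x 13) (hx _) (y 13) (hy _)).resolve_left (hc 13 (by decide))
  have k5 := (m13.resolve_left (not_not.2 p5)).resolve_left (not_not.2 q5)
  have m11 := (k5 (x 11) (hx _) (y 11) (hy _)).resolve_left (hc 11 (by decide))
  have m14 := (m11 (x 14) (hx _) (y 14) (hy _)).resolve_left (hc 14 (by decide))
  have k6 := (m14.resolve_left (not_not.2 p6)).resolve_left (not_not.2 q6)
  have m12 := (k6 (x 12) (hx _) (y 12) (hy _)).resolve_left (hc 12 (by decide))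
  have k7 := (m12.resolve_left (not_not.2 p7)).resolve_left (not_not.2 q7)
  have k8 := (k7.resolve_left (not_not.2 p8)).resolve_left (not_not.2 q8)
  exact (k8.resolve_left (not_not.2 p9)) q9

theorem main (C1 C2 : Finset (Fin 45))
    (h1 : ∀ v : Fin 30, (C1.filter (fun e : Fin 45 => s e = v ∨ t e = v)).card = 2)
    (h2 : ∀ v : Fin 30, Even (C2.filter (fun e : Fin 45 => s e = v ∨ t e = v)).card)
    (h : C0 ∪ C1 ∪ C2 = univ) : False := by
  refine nocover (fun e => if e ∈ C1 then 1 else 0) (fun e => if e ∈ C2 then 1 else 0)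
    (fun e => by split_ifs <;> simp) (fun e => by split_ifs <;> simp) (fun v => ?_) (fun v => ?_)
    (fun e he => ?_)
  · have := h1 v
    rw [card_eq] at this
    rw [this]
  · have := Nat.even_iff.1 (h2 v)
    rwa [card_eq] at this
  · have : e ∈ C0 ∪ C1 ∪ C2 := h ▸ mem_univ e
    simp only [C0, mem_union, mem_filter, mem_univ, true_and] at this
    rcases this with (h' | h') | h'
    · omega
    · simp [h']
    · simp [h']

end Pool.Agent.H.MP_31d2fb_co
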